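import Mathlib

/-!
# EL-BIG (helper225), part 1: logarithmic means of powers of `n / φ(n)`
-/

set_option autoImplicit false

namespace Pool.Agent.Q225.EL

open Finset

lemma local_factor (r : ℕ) {p : ℕ} (hp : p.Prime) :
    (((1 : ℝ) - (p : ℝ)⁻¹)⁻¹) ^ r ≤
      (if p < (2 * r + 2) ^ 2 then 2 ^ r else 1) * (1 + (p : ℝ) ^ (-(1 / 2) : ℝ)) := by
  have h2 : (2 : ℝ) ≤ p := by exact_mod_cast hp.two_le
  have hp0 : (0 : ℝ) < p := by linarith
  have hinv : (p : ℝ)⁻¹ ≤ 1 / 2 := by
    rw [inv_le_comm₀ hp0 (by norm_num)]; norm_num; exact_mod_cast h2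
  have hinv0 : 0 < (p : ℝ)⁻¹ := by positivity
  have hr : 0 < (p : ℝ) ^ (-(1 / 2) : ℝ) := by positivity
  split_ifs with h
  · have h3 : ((1 : ℝ) - (p : ℝ)⁻¹)⁻¹ ≤ 2 := by
      rw [inv_le_comm₀ (by linarith) (by norm_num)]; norm_num; linarith
    have h4 : (((1 : ℝ) - (p : ℝ)⁻¹)⁻¹) ^ r ≤ 2 ^ r :=
      pow_le_pow_left₀ (inv_nonneg.2 (by linarith)) h3 r
    refine h4.trans ?_
    have : (0 : ℝ) < 2 ^ r := by positivity
    nlinarith
  · push Not at h
    have h64 : ((2 * r + 2 : ℝ)) ^ 2 ≤ p := by exact_mod_cast h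
    set t := (p : ℝ) ^ (-(1 / 2) : ℝ) with ht
    have ht2 : t ^ 2 = (p : ℝ)⁻¹ := by
      rw [ht, ← Real.rpow_natCast, ← Real.rpow_mul hp0.le]
      norm_num
      exact Real.rpow_neg_one _
    have hr0 : (0 : ℝ) ≤ r := Nat.cast_nonneg r
    have ht8 : t ≤ 1 / (2 * r + 2) := by
      by_contra hcon
      push Not at hcon
      have h1 : (1 / (2 * r + 2) : ℝ) ^ 2 < t ^ 2 :=
        pow_lt_pow_left₀ hcon (by positivity) (by norm_num)
      rw [ht2] at h1
      have h3 : (p : ℝ)⁻¹ ≤ (1 / (2 * r + 2) : ℝ) ^ 2 := by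
        rw [one_div, inv_pow]
        exact inv_anti₀ (by positivity) h64
      linarith
    have hrt : (2 * r + 2) * t ≤ 1 := by
      have := mul_le_mul_of_nonneg_left ht8 (show (0 : ℝ) ≤ 2 * r + 2 by positivity)
      rwa [mul_one_div, div_self (by positivity)] at this
    have ht1 : t ≤ 1 / 2 := by nlinarith
    rw [← ht2, inv_pow, one_mul]
    have h5 : 0 < (1 - t ^ 2) ^ r := by
      have : 0 < 1 - t ^ 2 := by nlinarith
      positivity
    rw [inv_le_iff_one_le_mul₀ h5]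
    have h6 : 1 - r * t ^ 2 ≤ (1 - t ^ 2) ^ r := by
      have := one_add_mul_le_pow (a := -t ^ 2) (by nlinarith) r
      have h7 : (1 + -t ^ 2) = 1 - t ^ 2 := by ring
      rw [h7] at this
      linarith
    have h8 : 1 ≤ (1 + t) * (1 - r * t ^ 2) := by
      have h9 : r * t ≤ 1 / 2 := by nlinarith
      nlinarith [mul_nonneg hr.le hr.le, mul_nonneg (mul_nonneg hr.le hr.le) hr.le]
    calc (1 : ℝ) ≤ (1 + t) * (1 - r * t ^ 2) := h8
      _ ≤ (1 + t) * (1 - t ^ 2) ^ r := mul_le_mul_of_nonneg_left h6 (by linarith)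

lemma tot_eq (n : ℕ) (hn : 1 ≤ n) :
    (n : ℝ) / (Nat.totient n : ℝ) = ∏ p ∈ n.primeFactors, ((1 : ℝ) - (p : ℝ)⁻¹)⁻¹ := by
  have hn0 : (0 : ℝ) < n := by exact_mod_cast hn
  have h1 : (Nat.totient n : ℝ) = n * ∏ p ∈ n.primeFactors, (1 - (p : ℝ)⁻¹) := by
    have := Nat.totient_eq_mul_prod_factors n
    have h2 : ((Nat.totient n : ℚ) : ℝ) = ((n * ∏ p ∈ n.primeFactors, (1 - (p : ℚ)⁻¹) : ℚ) : ℝ) := by
      rw [this]
    push_cast at h2
    exact h2
  rw [h1, ← div_div, div_self hn0.ne', one_div, Finset.prod_inv_distrib]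

lemma one_le_fac {p : ℕ} (hp : p.Prime) : 1 ≤ ((1 : ℝ) - (p : ℝ)⁻¹)⁻¹ := by
  have h2 : (2 : ℝ) ≤ p := by exact_mod_cast hp.two_le
  have hp0 : (0 : ℝ) < p := by linarith
  have hinv : (p : ℝ)⁻¹ ≤ 1 / 2 := by
    rw [inv_le_comm₀ hp0 (by norm_num)]; norm_num; exact_mod_cast h2
  have hinv0 : 0 < (p : ℝ)⁻¹ := by positivity
  exact (one_le_inv₀ (by linarith)).2 (by linarith)

/-- the factor of a product of numbers -/
lemma tot_mul (a m : ℕ) (ha : 1 ≤ a) (hm : 1 ≤ m) (K : ℕ) :
    ((a * m ^ K : ℕ) : ℝ) / (Nat.totient (a * m ^ K) : ℝ) ≤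
      (a : ℝ) / (Nat.totient a : ℝ) * ((m : ℝ) / (Nat.totient m : ℝ)) := by
  have hmK : 1 ≤ m ^ K := Nat.one_le_pow _ _ hm
  rw [tot_eq _ (Nat.mul_pos ha hmK), tot_eq _ ha, tot_eq _ hm]
  have hsub : (a * m ^ K).primeFactors ⊆ a.primeFactors ∪ m.primeFactors := by
    rw [Nat.primeFactors_mul (by omega) (by omega)]
    refine union_subset_union_right ?_
    rcases Nat.eq_zero_or_pos K with hK | hK
    · rw [hK, pow_zero, Nat.primeFactors_one]
      exact Finset.empty_subset _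
    · rw [Nat.primeFactors_pow _ hK.ne']
  calc ∏ p ∈ (a * m ^ K).primeFactors, ((1 : ℝ) - (p : ℝ)⁻¹)⁻¹
      ≤ ∏ p ∈ a.primeFactors ∪ m.primeFactors, ((1 : ℝ) - (p : ℝ)⁻¹)⁻¹ := by
        refine Finset.prod_le_prod_of_subset_of_one_le hsub (fun p hp => ?_) fun p hp _ => ?_
        · exact (zero_le_one.trans (one_le_fac (Nat.prime_of_mem_primeFactors hp)))
        · rw [mem_union] at hp
          rcases hp with hp | hp <;> exact one_le_fac (Nat.prime_of_mem_primeFactors hp)
    _ ≤ (∏ p ∈ a.primeFactors, ((1 : ℝ) - (p : ℝ)⁻¹)⁻¹) *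
        ∏ p ∈ m.primeFactors, ((1 : ℝ) - (p : ℝ)⁻¹)⁻¹ := by
        rw [← Finset.prod_union_inter]
        refine le_mul_of_one_le_right ?_ ?_
        · refine prod_nonneg fun p hp => ?_
          rw [mem_union] at hp
          rcases hp with hp | hp <;>
            exact (zero_le_one.trans (one_le_fac (Nat.prime_of_mem_primeFactors hp)))
        · have h0 : ∀ s : Finset ℕ, (∀ p ∈ s, p.Prime) →
              1 ≤ ∏ p ∈ s, ((1 : ℝ) - (p : ℝ)⁻¹)⁻¹ := by
            intro s
            induction s using Finset.induction_on with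
            | empty => intro _; simp
            | insert p s hps ih =>
              intro hs
              rw [Finset.prod_insert hps]
              exact one_le_mul_of_one_le_of_one_le (one_le_fac (hs p (Finset.mem_insert_self _ _)))
                (ih fun q hq => hs q (Finset.mem_insert_of_mem hq))
          exact h0 _ fun p hp => Nat.prime_of_mem_primeFactors (mem_inter.1 hp).1

lemma totRatio_le (r n : ℕ) (hn : 1 ≤ n) :
    ((n : ℝ) / (Nat.totient n : ℝ)) ^ r ≤
      (2 ^ r) ^ ((2 * r + 2) ^ 2) * ∑ d ∈ n.divisors, (d : ℝ) ^ (-(1 / 2) : ℝ) := by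
  rw [tot_eq n hn, ← Finset.prod_pow]
  calc ∏ p ∈ n.primeFactors, (((1 : ℝ) - (p : ℝ)⁻¹)⁻¹) ^ r
      ≤ ∏ p ∈ n.primeFactors, ((if p < (2 * r + 2) ^ 2 then 2 ^ r else 1) *
          (1 + (p : ℝ) ^ (-(1 / 2) : ℝ))) := by
        refine Finset.prod_le_prod (fun p hp => ?_) fun p hp => ?_
        · exact pow_nonneg (zero_le_one.trans (one_le_fac (Nat.prime_of_mem_primeFactors hp))) _
        · exact local_factor r (Nat.prime_of_mem_primeFactors hp)
    _ = (∏ p ∈ n.primeFactors, (if p < (2 * r + 2) ^ 2 then (2 ^ r : ℝ) else 1)) *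
        ∏ p ∈ n.primeFactors, (1 + (p : ℝ) ^ (-(1 / 2) : ℝ)) := Finset.prod_mul_distrib
    _ ≤ (2 ^ r) ^ ((2 * r + 2) ^ 2) * ∑ d ∈ n.divisors, (d : ℝ) ^ (-(1 / 2) : ℝ) := by
        refine mul_le_mul ?_ ?_ (Finset.prod_nonneg fun p _ => by positivity) (by positivity)
        · rw [Finset.prod_ite, Finset.prod_const, Finset.prod_const_one, mul_one]
          refine pow_le_pow_right₀ (one_le_pow₀ (by norm_num)) ?_
          have : (n.primeFactors.filter (fun p => p < (2 * r + 2) ^ 2)) ⊆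
              Finset.range ((2 * r + 2) ^ 2) := by
            intro p hp
            rw [Finset.mem_filter] at hp
            exact Finset.mem_range.2 hp.2
          simpa using Finset.card_le_card this
        · rw [Finset.prod_one_add]
          have hprod : ∀ s ∈ n.primeFactors.powerset,
              ∏ p ∈ s, (p : ℝ) ^ (-(1 / 2) : ℝ) = ((∏ p ∈ s, p : ℕ) : ℝ) ^ (-(1 / 2) : ℝ) := by
            intro s _
            rw [Nat.cast_prod, Real.finsetProd_rpow s (fun p => (p : ℝ)) (fun p _ => by positivity)]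
          rw [Finset.sum_congr rfl hprod]
          have hinj : Set.InjOn (fun s : Finset ℕ => ∏ p ∈ s, p) (n.primeFactors.powerset : Set (Finset ℕ)) := by
            intro s hs t ht hst
            simp only [Finset.coe_powerset, Set.mem_preimage, Set.mem_powerset_iff] at hs ht
            have h3 : (∏ p ∈ s, p).primeFactors = s := Nat.primeFactors_prod fun p hp =>
              Nat.prime_of_mem_primeFactors (hs hp)
            have h4 : (∏ p ∈ t, p).primeFactors = t := Nat.primeFactors_prod fun p hp =>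
              Nat.prime_of_mem_primeFactors (ht hp)
            have h5 : ∏ p ∈ s, p = ∏ p ∈ t, p := hst
            rw [← h3, h5, h4]
          rw [← Finset.sum_image (f := fun d : ℕ => (d : ℝ) ^ (-(1 / 2) : ℝ)) hinj]
          refine Finset.sum_le_sum_of_subset_of_nonneg ?_ fun d _ _ => by positivity
          intro d hd
          rw [Finset.mem_image] at hd
          obtain ⟨s, hs, rfl⟩ := hd
          rw [Finset.mem_powerset] at hs
          rw [Nat.mem_divisors]
          exact ⟨(Finset.prod_dvd_prod_of_subset _ _ _ hs).trans (Nat.prod_primeFactors_dvd n), by omega⟩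

/-- the logarithmic mean of a power of `n / φ(n)` -/
theorem tot_log (r : ℕ) : ∃ C : ℝ, 0 < C ∧ ∀ N : ℕ,
    ∑ n ∈ Finset.Icc 1 N, ((n : ℝ) / (Nat.totient n : ℝ)) ^ r / n ≤ C * (1 + Real.log N) := by
  have hs : Summable (fun d : ℕ => (d : ℝ) ^ (-(3 / 2) : ℝ)) :=
    Real.summable_nat_rpow.2 (by norm_num)
  refine ⟨(2 ^ r) ^ ((2 * r + 2) ^ 2) * (∑' d : ℕ, (d : ℝ) ^ (-(3 / 2) : ℝ)), ?_, fun N => ?_⟩
  · refine mul_pos (by positivity) ?_
    have h1 := hs.sum_le_tsum {1} fun d _ => by positivity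
    rw [sum_singleton] at h1
    refine lt_of_lt_of_le ?_ h1
    norm_num
  rcases Nat.eq_zero_or_pos N with rfl | hN
  · simp
    have : 0 ≤ ∑' d : ℕ, (d : ℝ) ^ (-(3 / 2) : ℝ) := tsum_nonneg fun d => by positivity
    positivity
  have hlog : ∀ M : ℕ, M ≤ N → ∑ n ∈ Icc 1 M, (1 : ℝ) / n ≤ 1 + Real.log N := by
    intro M hM
    rcases Nat.eq_zero_or_pos M with rfl | hM0
    · have : 0 ≤ Real.log N := Real.log_natCast_nonneg _
      simp
      linarith
    · have h1 := harmonic_le_one_add_log M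
      rw [harmonic_eq_sum_Icc] at h1
      push_cast at h1
      simp only [one_div]
      refine h1.trans ?_
      have := Real.log_le_log (by exact_mod_cast hM0) (show (M : ℝ) ≤ N by exact_mod_cast hM)
      linarith
  calc ∑ n ∈ Finset.Icc 1 N, ((n : ℝ) / (Nat.totient n : ℝ)) ^ r / n
      ≤ ∑ n ∈ Finset.Icc 1 N, (2 ^ r) ^ ((2 * r + 2) ^ 2) *
          ∑ d ∈ n.divisors, (d : ℝ) ^ (-(1 / 2) : ℝ) / n := by
        refine Finset.sum_le_sum fun n hn => ?_
        rw [← Finset.sum_div, ← mul_div_assoc]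
        exact div_le_div_of_nonneg_right (totRatio_le r n (Finset.mem_Icc.1 hn).1) (Nat.cast_nonneg _)
    _ = (2 ^ r) ^ ((2 * r + 2) ^ 2) *
          ∑ n ∈ Finset.Icc 1 N, ∑ d ∈ n.divisors, (d : ℝ) ^ (-(1 / 2) : ℝ) / n := by
        rw [Finset.mul_sum]
    _ ≤ (2 ^ r) ^ ((2 * r + 2) ^ 2) * ((∑' d : ℕ, (d : ℝ) ^ (-(3 / 2) : ℝ)) * (1 + Real.log N)) := by
        refine mul_le_mul_of_nonneg_left ?_ (by positivity)
        have h1 : ∑ n ∈ Finset.Icc 1 N, ∑ d ∈ n.divisors, (d : ℝ) ^ (-(1 / 2) : ℝ) / n =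
            ∑ d ∈ Finset.Icc 1 N, ∑ n ∈ (Finset.Icc 1 N).filter (fun n => d ∣ n),
              (d : ℝ) ^ (-(1 / 2) : ℝ) / n := by
          refine Finset.sum_comm' ?_
          intro n d
          simp only [Finset.mem_Icc, Nat.mem_divisors, Finset.mem_filter]
          constructor
          · rintro ⟨⟨h1, h2⟩, h3, h4⟩
            exact ⟨⟨⟨h1, h2⟩, h3⟩, Nat.pos_of_dvd_of_pos h3 h1, (Nat.le_of_dvd h1 h3).trans h2⟩
          · rintro ⟨⟨⟨h1, h2⟩, h3⟩, _⟩
            exact ⟨⟨h1, h2⟩, h3, by omega⟩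
        rw [h1]
        have h2 : ∀ d ∈ Finset.Icc 1 N, ∑ n ∈ (Finset.Icc 1 N).filter (fun n => d ∣ n),
            (d : ℝ) ^ (-(1 / 2) : ℝ) / n ≤ (d : ℝ) ^ (-(3 / 2) : ℝ) * (1 + Real.log N) := by
          intro d hd
          rw [Finset.mem_Icc] at hd
          have hd0 : (0 : ℝ) < d := by exact_mod_cast hd.1
          have h3 : ∑ n ∈ (Finset.Icc 1 N).filter (fun n => d ∣ n), (d : ℝ) ^ (-(1 / 2) : ℝ) / n =
              ∑ i ∈ Icc 1 (N / d), (d : ℝ) ^ (-(3 / 2) : ℝ) * (1 / i) := by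
            symm
            refine Finset.sum_bij' (fun i _ => d * i) (fun n _ => n / d) ?_ ?_ ?_ ?_ ?_
            · intro i hi
              rw [mem_Icc] at hi
              rw [mem_filter, mem_Icc]
              refine ⟨⟨Nat.mul_pos hd.1 hi.1, ?_⟩, dvd_mul_right _ _⟩
              have := (Nat.le_div_iff_mul_le hd.1).1 hi.2
              rwa [mul_comm]
            · intro n hn
              rw [mem_filter, mem_Icc] at hn
              rw [mem_Icc]
              exact ⟨Nat.div_pos (Nat.le_of_dvd hn.1.1 hn.2) hd.1, Nat.div_le_div_right hn.1.2⟩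
            · intro i hi
              exact Nat.mul_div_cancel_left i hd.1
            · intro n hn
              rw [mem_filter] at hn
              exact Nat.mul_div_cancel' hn.2
            · intro i hi
              have h4 : (d : ℝ) ^ (-(3 / 2) : ℝ) = (d : ℝ) ^ (-(1 / 2) : ℝ) / d := by
                rw [← Real.rpow_sub_one hd0.ne']; norm_num
              rw [h4]
              push_cast
              rw [div_mul_div_comm, mul_one]
          rw [h3, ← Finset.mul_sum]
          exact mul_le_mul_of_nonneg_left (hlog _ (Nat.div_le_self _ _)) (by positivity)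
        refine (Finset.sum_le_sum h2).trans ?_
        rw [← Finset.sum_mul]
        refine mul_le_mul_of_nonneg_right (hs.sum_le_tsum _ fun d _ => by positivity) ?_
        have := Real.log_natCast_nonneg N
        linarith
    _ = _ := by ring

end Pool.Agent.Q225.EL
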