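import Pool.Agent.Q177.EL.Base
import Pool.Agent.Q225.EL.Tot

/-!
# Project EL, job BIG: few `n` such that a form has a large prime factor
-/

set_option autoImplicit false

namespace Pool.Agent.Q225.EL

open Finset Filter Topology
open Pool.Agent.Q270.EN Pool.Agent.Q259.RM Pool.Agent.Q177.EL

/-- the discriminant with one more form -/
lemma disc_cons {k : ℕ} (a b : Fin k → ℤ) (c s : ℤ) :
    disc (Fin.cons c a : Fin (k + 1) → ℤ) (Fin.cons s b : Fin (k + 1) → ℤ) =
      c * disc a b * ∏ j, (c * b j - a j * s) := by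
  unfold disc
  have h1 : ∀ (n : ℕ) (f : Fin n → Fin n → ℤ), ∏ i, ∏ j ∈ univ.filter (fun j => i < j), f i j =
      ∏ i, ∏ j, if i < j then f i j else 1 := fun n f =>
    prod_congr rfl fun i _ => prod_filter _ _
  rw [h1, h1, Fin.prod_univ_succ, Fin.prod_univ_succ]
  have h2 : ∏ j : Fin (k + 1), (if (0 : Fin (k + 1)) < j then
      (Fin.cons c a : Fin (k + 1) → ℤ) 0 * (Fin.cons s b : Fin (k + 1) → ℤ) j -
        (Fin.cons c a : Fin (k + 1) → ℤ) j * (Fin.cons s b : Fin (k + 1) → ℤ) 0 else 1) =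
      ∏ j : Fin k, (c * b j - a j * s) := by
    rw [Fin.prod_univ_succ]
    simp
  have h3 : ∀ i : Fin k, ∏ j : Fin (k + 1), (if i.succ < j then
      (Fin.cons c a : Fin (k + 1) → ℤ) i.succ * (Fin.cons s b : Fin (k + 1) → ℤ) j -
        (Fin.cons c a : Fin (k + 1) → ℤ) j * (Fin.cons s b : Fin (k + 1) → ℤ) i.succ else 1) =
      ∏ j : Fin k, (if i < j then a i * b j - a j * b i else 1) := by
    intro i
    rw [Fin.prod_univ_succ]
    simp
  rw [h2, prod_congr rfl fun i _ => h3 i]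
  simp only [Fin.cons_zero, Fin.cons_succ]
  ring

lemma vL_cons {k : ℕ} (a b : Fin k → ℤ) (c s : ℕ) (t : ℕ) :
    vL (Fin.cons (c : ℤ) a : Fin (k + 1) → ℤ) (Fin.cons (s : ℤ) b : Fin (k + 1) → ℤ) t =
      ArithmeticFunction.vonMangoldt (c * t + s) * vL a b t := by
  unfold vL
  rw [Fin.prod_univ_succ]
  simp only [Fin.cons_zero, Fin.cons_succ]
  congr 2

/-- the sizes -/
lemma ev_size (A N₁ : ℕ) : ∀ᶠ N : ℕ in atTop, ∀ m : ℕ, 1 ≤ m →
    (m : ℝ) ≤ 2 * A * (N : ℝ) ^ (1 / 4 : ℝ) → N₁ ≤ N / m ∧ 3 * A ^ 2 * m ≤ N / m := by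
  have hpow : Tendsto (fun N : ℕ => (N : ℝ) ^ (1 / 4 : ℝ)) atTop atTop :=
    (tendsto_rpow_atTop (by norm_num)).comp tendsto_natCast_atTop_atTop
  filter_upwards [hpow.eventually_ge_atTop ((3 * A ^ 2 + N₁) * (2 * A) ^ 2 + 1)]
    with N hN m hm1 hm
  set x := (N : ℝ) ^ (1 / 4 : ℝ) with hx
  have hx4 : (N : ℝ) = x ^ 4 := by
    rw [hx, ← Real.rpow_natCast, ← Real.rpow_mul (Nat.cast_nonneg N)]
    norm_num
  have hA0 : (0 : ℝ) ≤ A := Nat.cast_nonneg A
  have hN0 : (0 : ℝ) ≤ N₁ := Nat.cast_nonneg N₁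
  have hmr : (1 : ℝ) ≤ m := by exact_mod_cast hm1
  have hx1 : 1 ≤ x := by
    have : (0 : ℝ) ≤ (3 * A ^ 2 + N₁) * (2 * A) ^ 2 := by positivity
    linarith
  have h1 : ((3 * A ^ 2 + N₁ : ℕ) : ℝ) * m * m ≤ N := by
    push_cast
    calc (3 * (A : ℝ) ^ 2 + N₁) * m * m ≤ (3 * (A : ℝ) ^ 2 + N₁) * (2 * A * x) * (2 * A * x) := by
          gcongr
      _ = ((3 * (A : ℝ) ^ 2 + N₁) * (2 * A) ^ 2) * x ^ 2 := by ring
      _ ≤ x * x ^ 2 := by
          apply mul_le_mul_of_nonneg_right _ (by positivity)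
          linarith
      _ ≤ x * x ^ 2 * x := le_mul_of_one_le_right (by positivity) hx1
      _ = N := by rw [hx4]; ring
  have h2 : (3 * A ^ 2 + N₁) * m * m ≤ N := by exact_mod_cast h1
  constructor
  · rw [Nat.le_div_iff_mul_le hm1]
    have : N₁ * m ≤ (3 * A ^ 2 + N₁) * m * m := by
      nlinarith [Nat.zero_le (3 * A ^ 2 * m), Nat.mul_le_mul_left (N₁ * m) hm1,
        Nat.zero_le (3 * A ^ 2 * m * m)]
    omega
  · rw [Nat.le_div_iff_mul_le hm1]
    have : 3 * A ^ 2 * m * m ≤ (3 * A ^ 2 + N₁) * m * m := by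
      apply Nat.mul_le_mul_right
      apply Nat.mul_le_mul_right
      omega
    omega

/-- the fixed part of the discriminant -/
noncomputable def Fu (T : Finset (ℕ × ℕ)) (u : ℕ × ℕ) : ℕ :=
  ((u.1 : ℤ) * disc (aT T) (bT T) * ∏ j, ((u.1 : ℤ) * bT T j - aT T j * u.2)).natAbs

lemma AF_m (F : ℤ) (m w : ℕ) (hF : F ≠ 0) (hm : 1 ≤ m) :
    AF (F * (m : ℤ) ^ w) ≤ AF F * ((m : ℝ) / (Nat.totient m : ℝ)) := by
  have h := tot_mul F.natAbs m (Nat.one_le_iff_ne_zero.2 (Int.natAbs_ne_zero.2 hF)) hm w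
  have h1 : (F * (m : ℤ) ^ w).natAbs = F.natAbs * m ^ w := by
    rw [Int.natAbs_mul, Int.natAbs_pow, Int.natAbs_natCast]
  unfold AF
  rw [h1]
  exact h

/-- the sum over one class -/
lemma class_sum (A : ℕ) (hA : 1 ≤ A) (T : Finset (ℕ × ℕ)) (hT : T = ∅ ∨ Adm A A T) (C : ℝ) (N₁ : ℕ)
    (hMA : ∀ N : ℕ, N₁ ≤ N → ∀ a b : Fin (T.card + 1) → ℤ,
      (∀ i, 0 < a i ∧ a i ≤ (N : ℤ) ^ 2 ∧ 0 ≤ b i ∧ b i ≤ (N : ℤ) ^ 2) → disc a b ≠ 0 →
      ∑ n ∈ Icc 1 N, vL a b n ≤ C * N * AF (disc a b) ^ (T.card + 1)) (hC : 0 < C)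
    (c d : ℕ) (hc1 : 1 ≤ c) (hcA : c ≤ A) (hdet : ∀ q ∈ T, c * q.2 ≠ q.1 * d)
    (m X s e : ℕ) (hm : 1 ≤ m) (hX1 : N₁ ≤ X) (hX2 : 3 * A ^ 2 * m ≤ X) (hs : s < c)
    (he : c * e + d = m * (A + s)) :
    ∑ t ∈ Icc 1 X, ArithmeticFunction.vonMangoldt (c * t + (A + s)) * vT T (m * t + e) ≤
      C * X * (AF ((c : ℤ) * disc (aT T) (bT T) * ∏ j, ((c : ℤ) * bT T j - aT T j * d)) *
        ((m : ℝ) / (Nat.totient m : ℝ))) ^ (T.card + 1) := by
  have hA2 : A ≤ A ^ 2 := by nlinarith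
  have hXpos : 1 ≤ X := by nlinarith
  have hXX : (X : ℤ) ≤ (X : ℤ) ^ 2 := by
    have : (1 : ℤ) ≤ X := by exact_mod_cast hXpos
    nlinarith
  have heb : e ≤ m * (2 * A) := by
    have h1 : e ≤ c * e := Nat.le_mul_of_pos_left e hc1
    have h2 : m * (A + s) ≤ m * (2 * A) := Nat.mul_le_mul_left m (by omega)
    omega
  have hm' : m * (2 * A) * A + A ≤ 3 * A ^ 2 * m := by
    have h1 : A ≤ A ^ 2 * m := by nlinarith
    nlinarith
  have hterm : ∀ t, ArithmeticFunction.vonMangoldt (c * t + (A + s)) * vT T (m * t + e) =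
      vL (Fin.cons (c : ℤ) (fun j => aT T j * m) : Fin (T.card + 1) → ℤ)
        (Fin.cons ((A + s : ℕ) : ℤ) (fun j => aT T j * e + bT T j) : Fin (T.card + 1) → ℤ) t := by
    intro t
    rw [vL_cons, vT_prog]
  have hdisc : disc (Fin.cons (c : ℤ) (fun j => aT T j * m) : Fin (T.card + 1) → ℤ)
      (Fin.cons ((A + s : ℕ) : ℤ) (fun j => aT T j * e + bT T j) : Fin (T.card + 1) → ℤ) =
      c * disc (fun j => aT T j * m) (fun j => aT T j * e + bT T j) *
        ∏ j, ((c : ℤ) * bT T j - aT T j * d) := by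
    rw [disc_cons]
    congr 1
    refine prod_congr rfl fun j _ => ?_
    have h1 : (c : ℤ) * e + d = m * ((A + s : ℕ) : ℤ) := by exact_mod_cast he
    linear_combination (aT T j) * h1
  obtain ⟨w, hw⟩ := disc_prog (aT T) (bT T) (m : ℤ) (e : ℤ)
  have hdisc' : disc (Fin.cons (c : ℤ) (fun j => aT T j * m) : Fin (T.card + 1) → ℤ)
      (Fin.cons ((A + s : ℕ) : ℤ) (fun j => aT T j * e + bT T j) : Fin (T.card + 1) → ℤ) =
      ((c : ℤ) * disc (aT T) (bT T) * ∏ j, ((c : ℤ) * bT T j - aT T j * d)) * (m : ℤ) ^ w := by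
    rw [hdisc, hw]
    ring
  have ha : ∀ i, aT T i ≠ 0 := fun i => by
    have := (adm_mem hT i).1
    omega
  have hD0 : disc (aT T) (bT T) ≠ 0 := disc_ne ha fun i j hij => adm_det hT hij
  have hF0 : (c : ℤ) * disc (aT T) (bT T) * ∏ j, ((c : ℤ) * bT T j - aT T j * d) ≠ 0 := by
    refine mul_ne_zero (mul_ne_zero (by omega) hD0) (prod_ne_zero_iff.2 fun j _ => ?_)
    have h1 := hdet _ (T.equivFin.symm j).2
    intro h0
    apply h1
    unfold aT bT at h0
    have h2 : ((c : ℤ) * (T.equivFin.symm j).1.2 : ℤ) = (T.equivFin.symm j).1.1 * d := by linarith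
    exact_mod_cast h2
  have hmain := hMA X hX1 (Fin.cons (c : ℤ) (fun j => aT T j * m) : Fin (T.card + 1) → ℤ)
    (Fin.cons ((A + s : ℕ) : ℤ) (fun j => aT T j * e + bT T j) : Fin (T.card + 1) → ℤ)
    (by
      intro i
      refine Fin.cases ?_ (fun j => ?_) i
      · simp only [Fin.cons_zero]
        refine ⟨by omega, ?_, by omega, ?_⟩
        · refine le_trans ?_ hXX
          have : c ≤ X := by nlinarith
          exact_mod_cast this
        · refine le_trans ?_ hXX
          have : A + s ≤ X := by nlinarith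
          exact_mod_cast this
      · simp only [Fin.cons_succ]
        obtain ⟨h1, h2, h3, h4⟩ := adm_mem hT j
        have hm0 : (0 : ℤ) < m := by exact_mod_cast hm
        have he0 : (0 : ℤ) ≤ e := Int.natCast_nonneg e
        refine ⟨by positivity, ?_, by positivity, ?_⟩
        · refine le_trans ?_ hXX
          have h5 : aT T j * m ≤ A * m := mul_le_mul_of_nonneg_right h2 hm0.le
          have h6 : A * m ≤ X := by nlinarith
          have h7 : ((A * m : ℕ) : ℤ) ≤ X := by exact_mod_cast h6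
          push_cast at h7
          linarith
        · refine le_trans ?_ hXX
          have h5 : aT T j * e ≤ A * e := mul_le_mul_of_nonneg_right h2 he0
          have h6 : A * e + A ≤ X := by
            have : A * e ≤ A * (m * (2 * A)) := Nat.mul_le_mul_left A heb
            nlinarith
          have h7 : ((A * e + A : ℕ) : ℤ) ≤ X := by exact_mod_cast h6
          push_cast at h7
          linarith)
    (by
      rw [hdisc']
      exact mul_ne_zero hF0 (pow_ne_zero _ (by omega)))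
  simp only [hterm]
  refine hmain.trans ?_
  apply mul_le_mul_of_nonneg_left _ (by positivity)
  rw [hdisc']
  have h8 := AF_m _ m w hF0 hm
  refine pow_le_pow_left₀ ?_ h8 _
  exact zero_le_one.trans (AF_one (mul_ne_zero hF0 (pow_ne_zero _ (by omega))))

open Classical in
/-- the map of the parameters -/
lemma param (A : ℕ) (hA : 1 ≤ A) (T : Finset (ℕ × ℕ)) (c d : ℕ) (hc1 : 1 ≤ c) (hcA : c ≤ A)
    (hdA : d ≤ A) (N : ℕ) (δ : ℝ) (hδ : δ ≤ 1 / 4) (hN : 1 ≤ N) (M : ℕ)
    (hM : M = ⌊2 * A * (N : ℝ) ^ δ⌋₊) (hNA : (2 * A : ℝ) ≤ (N : ℝ) ^ (1 - δ))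
    (hL : 0 < Real.log N) :
    ∑ n ∈ (Icc 1 N).filter (fun n => ∃ p : ℕ, p.Prime ∧ (N : ℝ) ^ (1 - δ) < p ∧ p ∣ c * n + d),
      vT T n ≤
    ∑ m ∈ Icc 1 M, ∑ s ∈ range c, ∑ t ∈ Icc 1 (N / m),
      if c ∣ m * (A + s) - d then (2 / Real.log N) *
        (ArithmeticFunction.vonMangoldt (c * t + (A + s)) * vT T (m * t + (m * (A + s) - d) / c))
      else 0 := by
  have hN0 : (0 : ℝ) < N := by exact_mod_cast hN
  set g : (ℕ × ℕ) × ℕ → ℝ := fun x => if c ∣ x.1.1 * (A + x.1.2) - d then (2 / Real.log N) *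
        (ArithmeticFunction.vonMangoldt (c * x.2 + (A + x.1.2)) *
          vT T (x.1.1 * x.2 + (x.1.1 * (A + x.1.2) - d) / c))
      else 0 with hg
  have hg0 : ∀ x, 0 ≤ g x := by
    intro x
    rw [hg]
    dsimp only
    split_ifs
    · exact mul_nonneg (by positivity) (mul_nonneg ArithmeticFunction.vonMangoldt_nonneg
        (vT_nonneg _ _))
    · exact le_rfl
  set S := (Icc 1 N).filter (fun n => ∃ p : ℕ, p.Prime ∧ (N : ℝ) ^ (1 - δ) < p ∧ p ∣ c * n + d)
    with hS
  set X : Finset ((ℕ × ℕ) × ℕ) := ((Icc 1 M) ×ˢ (range c)).sigma (fun y => Icc 1 (N / y.1)) |>.map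
    (Equiv.sigmaEquivProd (ℕ × ℕ) ℕ).toEmbedding with hX
  have hmemX : ∀ m s t, ((m, s), t) ∈ X ↔ (1 ≤ m ∧ m ≤ M) ∧ s < c ∧ 1 ≤ t ∧ t ≤ N / m := by
    intro m s t
    rw [hX, Finset.mem_map]
    constructor
    · rintro ⟨⟨⟨m', s'⟩, t'⟩, h1, h2⟩
      rw [mem_sigma, mem_product, mem_Icc, mem_range, mem_Icc] at h1
      have h3 : ((m', s'), t') = ((m, s), t) := h2
      obtain ⟨h4, h5⟩ := Prod.mk.inj h3
      obtain ⟨h6, h7⟩ := Prod.mk.inj h4
      subst h5 h6 h7
      exact ⟨h1.1.1, h1.1.2, h1.2⟩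
    · rintro ⟨h1, h2, h3⟩
      refine ⟨⟨(m, s), t⟩, ?_, rfl⟩
      rw [mem_sigma, mem_product, mem_Icc, mem_range, mem_Icc]
      exact ⟨⟨h1, h2⟩, h3⟩
  have hsumX : ∑ x ∈ X, g x = ∑ m ∈ Icc 1 M, ∑ s ∈ range c, ∑ t ∈ Icc 1 (N / m), g ((m, s), t) := by
    rw [hX, sum_map, sum_sigma, sum_product]
    rfl
  have key : ∀ n ∈ S, ∃ x : (ℕ × ℕ) × ℕ, x ∈ X ∧ vT T n ≤ g x ∧
      n = x.1.1 * x.2 + (x.1.1 * (A + x.1.2) - d) / c := by
    intro n hn
    rw [hS, mem_filter, mem_Icc] at hn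
    obtain ⟨⟨hn1, hnN⟩, p, hp, hpN, m, hm⟩ := hn
    have hp0 : (0 : ℝ) < p := lt_trans (Real.rpow_pos_of_pos hN0 _) hpN
    have hpA : 2 * A < p := by
      have : (2 * A : ℝ) < p := lt_of_le_of_lt hNA hpN
      exact_mod_cast this
    have hm1 : 1 ≤ m := by
      rcases Nat.eq_zero_or_pos m with h | h
      · rw [h, mul_zero] at hm
        have : 0 < c * n := Nat.mul_pos hc1 hn1
        omega
      · exact h
    have hmM : m ≤ M := by
      rw [hM]
      apply Nat.le_floor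
      have h1 : (m : ℝ) * (N : ℝ) ^ (1 - δ) ≤ 2 * A * N := by
        calc (m : ℝ) * (N : ℝ) ^ (1 - δ) ≤ m * p :=
              mul_le_mul_of_nonneg_left hpN.le (Nat.cast_nonneg m)
          _ = ((c * n + d : ℕ) : ℝ) := by
              rw [hm]
              push_cast
              ring
          _ ≤ ((2 * A * N : ℕ) : ℝ) := by
              have h2 : c * n ≤ A * N := Nat.mul_le_mul hcA hnN
              have h3 : A ≤ A * N := Nat.le_mul_of_pos_right A hN
              have : c * n + d ≤ 2 * A * N := by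
                have : 2 * A * N = A * N + A * N := by ring
                omega
              exact_mod_cast this
          _ = 2 * A * N := by push_cast; ring
      have h2 : (N : ℝ) = (N : ℝ) ^ δ * (N : ℝ) ^ (1 - δ) := by
        rw [← Real.rpow_add hN0]
        norm_num
      have h3 : (m : ℝ) * (N : ℝ) ^ (1 - δ) ≤ (2 * A * (N : ℝ) ^ δ) * (N : ℝ) ^ (1 - δ) := by
        calc (m : ℝ) * (N : ℝ) ^ (1 - δ) ≤ 2 * A * N := h1
          _ = (2 * A * (N : ℝ) ^ δ) * (N : ℝ) ^ (1 - δ) := by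
            rw [mul_assoc, mul_assoc (2 * (A : ℝ)), ← h2, mul_assoc]
      exact le_of_mul_le_mul_right h3 (Real.rpow_pos_of_pos hN0 _)
    set s := (p - A) % c with hs
    set t := (p - A) / c with ht
    have hsc : s < c := Nat.mod_lt _ hc1
    have hpt : p = c * t + (A + s) := by
      have := Nat.div_add_mod (p - A) c
      rw [← hs, ← ht] at this
      omega
    have ht1 : 1 ≤ t := by
      rw [ht, Nat.one_le_div_iff hc1]
      omega
    have hds : d ≤ m * (A + s) := by nlinarith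
    have he : c * (n - m * t) + d = m * (A + s) ∧ m * t ≤ n := by
      have h1 : c * n + d = m * (c * t) + m * (A + s) := by
        rw [hm, hpt]
        ring
      have h2 : m * t ≤ n := by
        by_contra hcon
        push Not at hcon
        have h3 : c * n + c ≤ c * (m * t) := by
          have : c * (n + 1) ≤ c * (m * t) := Nat.mul_le_mul_left c hcon
          linarith
        have h4 : m * (c * t) = c * (m * t) := by ring
        -- d = c m t - c n + m (A + s) ≥ c + A > A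
        have h5 : A ≤ m * (A + s) := by nlinarith
        omega
      refine ⟨?_, h2⟩
      have h3 : c * (n - m * t) = c * n - c * (m * t) := Nat.mul_sub c n (m * t)
      have h4 : m * (c * t) = c * (m * t) := by ring
      have h5 : c * (m * t) ≤ c * n := Nat.mul_le_mul_left c h2
      omega
    obtain ⟨he1, he2⟩ := he
    have hdiv : m * (A + s) - d = c * (n - m * t) := by omega
    have hdvd : c ∣ m * (A + s) - d := by
      rw [hdiv]
      exact dvd_mul_right _ _
    have hquot : (m * (A + s) - d) / c = n - m * t := by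
      rw [hdiv]
      exact Nat.mul_div_cancel_left _ hc1
    have hn' : n = m * t + (m * (A + s) - d) / c := by omega
    refine ⟨((m, s), t), (hmemX m s t).2 ⟨⟨hm1, hmM⟩, hsc, ht1, ?_⟩, ?_, hn'⟩
    · rw [Nat.le_div_iff_mul_le hm1]
      have : t * m = m * t := mul_comm _ _
      omega
    · rw [hg]
      dsimp only
      rw [if_pos hdvd, ← hn', ← hpt, ArithmeticFunction.vonMangoldt_apply_prime hp, ← mul_assoc]
      apply le_mul_of_one_le_left (vT_nonneg _ _)
      have h1 : Real.log N / 2 ≤ Real.log p := by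
        have h2 : Real.log ((N : ℝ) ^ (1 - δ)) ≤ Real.log p :=
          Real.log_le_log (Real.rpow_pos_of_pos hN0 _) hpN.le
        rw [Real.log_rpow hN0] at h2
        nlinarith
      rw [div_mul_eq_mul_div, le_div_iff₀ hL]
      linarith
  choose! f hfX hfv hfn using key
  calc ∑ n ∈ S, vT T n ≤ ∑ n ∈ S, g (f n) := sum_le_sum fun n hn => hfv n hn
    _ = ∑ x ∈ S.image f, g x := by
        rw [sum_image]
        intro n hn n' hn' h
        have h1 := hfn n hn
        have h2 := hfn n' hn'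
        rw [h] at h1
        exact h1.trans h2.symm
    _ ≤ ∑ x ∈ X, g x := by
        apply sum_le_sum_of_subset_of_nonneg
        · intro x hx
          rw [mem_image] at hx
          obtain ⟨n, hn, rfl⟩ := hx
          exact hfX n hn
        · intro x _ _
          exact hg0 x
    _ = _ := hsumX

open Classical in
theorem t_BIG : S_BIG := by
  intro A T U hTU hdisj
  have hA : 1 ≤ A := by
    obtain ⟨q, hq⟩ := hTU.1
    have := hTU.2.1 q hq
    omega
  have hT : T = ∅ ∨ Adm A A T := by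
    rcases T.eq_empty_or_nonempty with h | h
    · exact Or.inl h
    · exact Or.inr ⟨h, fun q hq => hTU.2.1 q (mem_union_left _ hq), fun q hq q' hq' =>
        hTU.2.2 q (mem_union_left _ hq) q' (mem_union_left _ hq')⟩
  obtain ⟨C, hC, hMA⟩ := MA (T.card + 1) 2 le_rfl
  obtain ⟨N₁, hN₁⟩ := eventually_atTop.1 hMA
  obtain ⟨C2, hC2, htot⟩ := tot_log (T.card + 1)
  set G : ℕ × ℕ → ℝ := fun u => AF ((u.1 : ℤ) * disc (aT T) (bT T) *
    ∏ j, ((u.1 : ℤ) * bT T j - aT T j * u.2)) ^ (T.card + 1) with hG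
  have hAF0 : ∀ D : ℤ, 0 ≤ AF D := fun D => by
    unfold AF
    positivity
  have hG0 : ∀ u, 0 ≤ G u := fun u => pow_nonneg (hAF0 _) _
  have hK0 : 0 ≤ ∑ u ∈ U, 4 * A * C * G u * C2 :=
    sum_nonneg fun u _ => by
      have := hG0 u
      positivity
  refine ⟨∑ u ∈ U, 4 * A * C * G u * C2 + 1, by linarith, fun δ hδ0 hδ1 => ?_⟩
  have hlog : Tendsto (fun N : ℕ => δ * Real.log N) atTop atTop :=
    (Real.tendsto_log_atTop.comp tendsto_natCast_atTop_atTop).const_mul_atTop hδ0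
  have hpow : Tendsto (fun N : ℕ => (N : ℝ) ^ (1 - δ)) atTop atTop :=
    (tendsto_rpow_atTop (by linarith)).comp tendsto_natCast_atTop_atTop
  filter_upwards [ev_size A N₁, eventually_ge_atTop 1, hpow.eventually_ge_atTop (2 * A : ℝ),
    hlog.eventually_ge_atTop (1 + Real.log (2 * A))] with N hsize hN1 hNA hNL
  have hN0 : (0 : ℝ) < N := by exact_mod_cast hN1
  have hA1 : (1 : ℝ) ≤ A := by exact_mod_cast hA
  have hlog2A : 0 ≤ Real.log (2 * A) := Real.log_nonneg (by linarith)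
  have hL : 0 < Real.log N := by
    by_contra h
    push Not at h
    have := mul_nonpos_of_nonneg_of_nonpos hδ0.le h
    linarith
  set M := ⌊2 * A * (N : ℝ) ^ δ⌋₊ with hM
  have hN1r : (1 : ℝ) ≤ N := by exact_mod_cast hN1
  have hMle : (M : ℝ) ≤ 2 * A * (N : ℝ) ^ δ := Nat.floor_le (by positivity)
  have hMle' : (M : ℝ) ≤ 2 * A * (N : ℝ) ^ (1 / 4 : ℝ) := by
    refine hMle.trans (mul_le_mul_of_nonneg_left ?_ (by positivity))
    exact Real.rpow_le_rpow_of_exponent_le hN1r hδ1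
  have hlogM : 1 + Real.log M ≤ 2 * δ * Real.log N := by
    rcases Nat.eq_zero_or_pos M with h | h
    · rw [h, Nat.cast_zero, Real.log_zero]
      linarith
    · have h1 : Real.log M ≤ Real.log (2 * A * (N : ℝ) ^ δ) :=
        Real.log_le_log (by exact_mod_cast h) hMle
      rw [Real.log_mul (by positivity) (by positivity), Real.log_rpow hN0] at h1
      linarith
  -- one form
  have hone : ∀ u ∈ U, ∑ n ∈ (Icc 1 N).filter (fun n => ∃ p : ℕ, p.Prime ∧
      (N : ℝ) ^ (1 - δ) < p ∧ p ∣ u.1 * n + u.2), vT T n ≤ 4 * A * C * G u * C2 * (δ * N) := by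
    intro u hu
    obtain ⟨hc1, hcA, hdA⟩ := hTU.2.1 u (mem_union_right _ hu)
    refine (param A hA T u.1 u.2 hc1 hcA hdA N δ hδ1 hN1 M hM hNA hL).trans ?_
    have hdet : ∀ q ∈ T, u.1 * q.2 ≠ q.1 * u.2 := fun q hq =>
      hTU.2.2 u (mem_union_right _ hu) q (mem_union_left _ hq) (by
        rintro rfl
        exact Finset.disjoint_left.1 hdisj hq hu)
    have hms : ∀ m ∈ Icc 1 M, ∀ s ∈ range u.1, (∑ t ∈ Icc 1 (N / m),
        if u.1 ∣ m * (A + s) - u.2 then (2 / Real.log N) *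
          (ArithmeticFunction.vonMangoldt (u.1 * t + (A + s)) *
            vT T (m * t + (m * (A + s) - u.2) / u.1))
        else 0) ≤ 2 / Real.log N * C * N * G u * (((m : ℝ) / (Nat.totient m : ℝ)) ^ (T.card + 1) / m) := by
      intro m hm s hs
      rw [mem_Icc] at hm
      rw [mem_range] at hs
      have hm0 : (0 : ℝ) < m := by exact_mod_cast hm.1
      by_cases hdvd : u.1 ∣ m * (A + s) - u.2
      · simp only [if_pos hdvd]
        rw [← mul_sum]
        have hds : u.2 ≤ m * (A + s) := by nlinarith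
        obtain ⟨hs1, hs2⟩ := hsize m hm.1 (le_trans (by exact_mod_cast hm.2) hMle')
        have h1 := class_sum A hA T hT C N₁ hN₁ hC u.1 u.2 hc1 hcA hdet m (N / m) s
          ((m * (A + s) - u.2) / u.1) hm.1 hs1 hs2 hs (by
            rw [Nat.mul_div_cancel' hdvd]
            omega)
        have h2 : ((N / m : ℕ) : ℝ) ≤ N / m := Nat.cast_div_le
        have h3 : C * ((N / m : ℕ) : ℝ) * (AF ((u.1 : ℤ) * disc (aT T) (bT T) *
            ∏ j, ((u.1 : ℤ) * bT T j - aT T j * u.2)) *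
            ((m : ℝ) / (Nat.totient m : ℝ))) ^ (T.card + 1) ≤ C * (N / m) *
            (G u * ((m : ℝ) / (Nat.totient m : ℝ)) ^ (T.card + 1)) := by
          rw [mul_pow]
          apply mul_le_mul_of_nonneg_right _ (mul_nonneg (hG0 u) (by positivity))
          exact mul_le_mul_of_nonneg_left h2 hC.le
        calc 2 / Real.log N * ∑ t ∈ Icc 1 (N / m),
              ArithmeticFunction.vonMangoldt (u.1 * t + (A + s)) *
                vT T (m * t + (m * (A + s) - u.2) / u.1)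
            ≤ 2 / Real.log N * (C * (N / m) *
              (G u * ((m : ℝ) / (Nat.totient m : ℝ)) ^ (T.card + 1))) :=
              mul_le_mul_of_nonneg_left (h1.trans h3) (by positivity)
          _ = _ := by ring
      · simp only [if_neg hdvd, sum_const_zero]
        have := hG0 u
        positivity
    calc ∑ m ∈ Icc 1 M, ∑ s ∈ range u.1, ∑ t ∈ Icc 1 (N / m),
          (if u.1 ∣ m * (A + s) - u.2 then (2 / Real.log N) *
            (ArithmeticFunction.vonMangoldt (u.1 * t + (A + s)) *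
              vT T (m * t + (m * (A + s) - u.2) / u.1))
          else 0)
        ≤ ∑ m ∈ Icc 1 M, ∑ s ∈ range u.1, 2 / Real.log N * C * N * G u *
            (((m : ℝ) / (Nat.totient m : ℝ)) ^ (T.card + 1) / m) :=
          sum_le_sum fun m hm => sum_le_sum fun s hs => hms m hm s hs
      _ = u.1 * (2 / Real.log N * C * N * G u) *
            ∑ m ∈ Icc 1 M, (((m : ℝ) / (Nat.totient m : ℝ)) ^ (T.card + 1) / m) := by
          rw [mul_sum]
          refine sum_congr rfl fun m _ => ?_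
          rw [sum_const, card_range, nsmul_eq_mul]
          ring
      _ ≤ A * (2 / Real.log N * C * N * G u) * (C2 * (2 * δ * Real.log N)) := by
          have hG' := hG0 u
          apply mul_le_mul
          · apply mul_le_mul_of_nonneg_right _ (by positivity)
            exact_mod_cast hcA
          · exact (htot M).trans (mul_le_mul_of_nonneg_left hlogM hC2.le)
          · exact sum_nonneg fun m _ => by positivity
          · positivity
      _ = 4 * A * C * G u * C2 * (δ * N) := by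
          field_simp
          ring
  calc ∑ n ∈ (Icc 1 N).filter (fun n => ∃ p : ℕ, p.Prime ∧ (N : ℝ) ^ (1 - δ) < p ∧
        p ∣ ∏ q ∈ U, (q.1 * n + q.2)), vT T n
      ≤ ∑ u ∈ U, ∑ n ∈ (Icc 1 N).filter (fun n => ∃ p : ℕ, p.Prime ∧
        (N : ℝ) ^ (1 - δ) < p ∧ p ∣ u.1 * n + u.2), vT T n := by
        -- classical
        simp only [sum_filter]
        rw [sum_comm]
        refine sum_le_sum fun n _ => ?_
        have hv := vT_nonneg T n
        have hnn : ∀ u ∈ U, (0 : ℝ) ≤ if (∃ p : ℕ, p.Prime ∧ (N : ℝ) ^ (1 - δ) < p ∧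
            p ∣ u.1 * n + u.2) then vT T n else 0 := fun u _ => by
          split_ifs
          · exact hv
          · exact le_rfl
        by_cases h : ∃ p : ℕ, p.Prime ∧ (N : ℝ) ^ (1 - δ) < p ∧ p ∣ ∏ q ∈ U, (q.1 * n + q.2)
        · rw [if_pos h]
          obtain ⟨p, hp, hpN, hpd⟩ := h
          obtain ⟨u, hu, hud⟩ := (hp.prime.dvd_finsetProd_iff _).1 hpd
          refine le_trans ?_ (single_le_sum hnn hu)
          rw [if_pos ⟨p, hp, hpN, hud⟩]
        · rw [if_neg h]
          exact sum_nonneg hnn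
    _ ≤ ∑ u ∈ U, 4 * A * C * G u * C2 * (δ * N) := sum_le_sum hone
    _ = (∑ u ∈ U, 4 * A * C * G u * C2) * (δ * N) := by rw [sum_mul]
    _ ≤ (∑ u ∈ U, 4 * A * C * G u * C2 + 1) * (δ * N) := by
        apply mul_le_mul_of_nonneg_right _ (by positivity)
        linarith
    _ = _ := by ring

end Pool.Agent.Q225.EL
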